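import Pool.Agent.H111R5.HM.Stmts

/-! `TaskEx` of project H111-HM. -/

set_option autoImplicit false
set_option linter.constructorNameAsVariable false

open Finset

namespace Pool.Agent.H662R3.HM

open Pool.Agent.H111R5.HM

/-- clique number of a residue -/
def cl (i : Fin 300) : ℕ := if i.val < 100 then 0 else i.val / 4

theorem card_cl : ∀ i : Fin 300, (univ.filter (fun j : Fin 300 => i ≠ j ∧ cl i = cl j)).card =
    if i.val < 100 then 99 else 3 := by
  decide +kernel

/-- residues of the vertices of large degree -/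
def big : Finset (Fin 300) := univ.filter fun i => i.val < 100

theorem mem_big (i : Fin 300) : i ∈ big ↔ i.val < 100 := by
  rw [big, mem_filter]
  exact and_iff_right (mem_univ i)

theorem card_big : big.card = 100 := by decide +kernel

theorem card_big_compl : bigᶜ.card = 200 := by
  rw [card_compl, card_big, Fintype.card_fin]

/-- the graph -/
def gr (t : ℕ) : SimpleGraph (Fin 300 × Fin t) where
  Adj p q := p.2 = q.2 ∧ p.1 ≠ q.1 ∧ cl p.1 = cl q.1
  symm := ⟨fun _ _ h => ⟨h.1.symm, h.2.1.symm, h.2.2.symm⟩⟩
  loopless := ⟨fun _ h => h.2.1 rfl⟩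

theorem card_gr (t : ℕ) (p : Fin 300 × Fin t) :
    Nat.card ((gr t).neighborSet p) = if p.1.val < 100 then 99 else 3 := by
  have h : (gr t).neighborSet p =
      (((univ.filter (fun j : Fin 300 => p.1 ≠ j ∧ cl p.1 = cl j)) ×ˢ {p.2} :
        Finset (Fin 300 × Fin t)) : Set (Fin 300 × Fin t)) := by
    ext q
    simp only [SimpleGraph.mem_neighborSet, gr, coe_product, Set.mem_prod, mem_coe, mem_filter,
      mem_univ, true_and, coe_singleton, Set.mem_singleton_iff]
    constructor
    · rintro ⟨h1, h2, h3⟩
      exact ⟨⟨h2, h3⟩, h1.symm⟩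
    · rintro ⟨⟨h2, h3⟩, h1⟩
      exact ⟨h1.symm, h2, h3⟩
  rw [← card_cl p.1, h, Nat.card_coe_set_eq, Set.ncard_coe_finset, card_product, card_singleton,
    mul_one]

theorem card_comap (t : ℕ) (e : Fin 300 × Fin t ≃ Fin (300 * t)) (p : Fin 300 × Fin t) :
    Nat.card (((gr t).comap e.symm).neighborSet (e p)) = if p.1.val < 100 then 99 else 3 := by
  rw [← card_gr t p]
  refine Nat.card_congr (Equiv.subtypeEquiv e.symm fun w => ?_)
  simp [SimpleGraph.mem_neighborSet]

theorem taskEx : TaskEx := by
  intro t
  obtain ⟨e⟩ : Nonempty (Fin 300 × Fin t ≃ Fin (300 * t)) := ⟨finProdFinEquiv⟩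
  refine ⟨(gr t).comap e.symm, (bigᶜ ×ˢ univ).map e.toEmbedding, (big ×ˢ univ).map e.toEmbedding,
    ?_, ?_, ?_, ?_, ?_, ?_⟩
  · rw [Finset.disjoint_map, Finset.disjoint_product]
    exact Or.inl disjoint_compl_left
  · rw [← Finset.map_union, ← Finset.union_product, union_comm, union_compl, univ_product_univ,
      map_univ_equiv]
  · rw [Finset.card_map, Finset.card_product, card_big]
    simp
  · rw [Finset.card_map, Finset.card_product, card_big_compl]
    simp
  · intro v hv
    rw [Finset.mem_map] at hv
    obtain ⟨p, hp, rfl⟩ := hv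
    rw [mem_product] at hp
    have h1 : ¬ p.1.val < 100 := by
      intro h
      exact (mem_compl.1 hp.1) ((mem_big _).2 h)
    have := card_comap t e p
    rw [if_neg h1] at this
    exact this
  · intro v hv
    rw [Finset.mem_map] at hv
    obtain ⟨p, hp, rfl⟩ := hv
    rw [mem_product] at hp
    have h1 : p.1.val < 100 := (mem_big _).1 hp.1
    have := card_comap t e p
    rw [if_pos h1] at this
    exact this

end Pool.Agent.H662R3.HM
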